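import Mathlib
import Pool.Agent.TH504.VY.Defs
import Pool.Agent.Y91.Sharp.Defs

/-!
# Families of abelian varieties which are not determined by the periods of another family
-/

namespace Pool.Agent.Y91.VH

open Matrix Pool.Agent.TH131.GHC Pool.Agent.Y91.Sharp

/-- Through each point `b` of `B` there is a disc or another Riemann surface `φ : U → B` along which
all the families `Z i` are good, and for each `i` there are two parameters at which the Hodge
structures of `Y` (on the flat rational cohomology) are the same and those of `Z i` are
different. For instance the family `Y` is constant, or there is a monodromy operator which is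
trivial on the cohomology of `Y` and not trivial on the homology of `Z i`. -/
def NotDetermined {ι B : Type} {g : ι → ℕ} {v : ℕ}
    (Z : ∀ i, B → Matrix (Fin (g i)) (Fin (g i)) ℂ) (Y : B → Coh v) : Prop :=
  ∀ b, ∃ (U : Set ℂ) (φ : ℂ → B), IsOpen U ∧ IsPreconnected U ∧ b ∈ φ '' U ∧
    ∀ i, IsGoodFamily U (fun t => Z i (φ t)) ∧
      ∃ s ∈ U, ∃ t ∈ U, (Y (φ s)).z = (Y (φ t)).z ∧ Z i (φ s) ≠ Z i (φ t)

end Pool.Agent.Y91.VH
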