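import Mathlib
import Pool.Agent.TH504.VY.Main
import Pool.Agent.TH504.CB.Indep
import Pool.Agent.Y91.TT.One
import Pool.Agent.Y91.Sharp.Good
import Pool.Agent.Y91.VH.Defs

/-!
# The variational Hodge conjecture for the product of a family of abelian varieties and a family of
# varieties
-/

set_option linter.unusedSectionVars false

namespace Pool.Agent.Y91.VH

open Matrix Equiv Module Pool.Agent.H204R3.SP Pool.Agent.H204R3.CM Pool.Agent.H194R3.CM
  Pool.Agent.W437.HC Pool.Agent.W437.HD Pool.Agent.W437.HP Pool.Agent.W437.HR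
  Pool.Agent.W548.Odd Pool.Agent.TH125.Small Pool.Agent.TH131.GHC Pool.Agent.TH504.VL
  Pool.Agent.W546.GHC Pool.Agent.TH504.VY Pool.Agent.TH504.CB

noncomputable section

variable {n d : ℕ} {g : Fin n → ℕ} {U : Set (Fin d → ℂ)}
  {Z : ∀ i, (Fin d → ℂ) → Matrix (Fin (g i)) (Fin (g i)) ℂ} {t₀ : Fin d → ℂ} {v : ℕ}

/-- The coordinates of a class which is a Hodge class for all members are killed by the first Hodge
operator of the very general member. -/
theorem opD_zero (h : VeryGood U Z t₀) (Y : (Fin d → ℂ) → Coh v)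
    (hsep : ∀ i, ∃ s ∈ U, ∃ t ∈ U, (Y s).z = (Y t).z ∧ Z i s ≠ Z i t)
    {F : HAZ (∀ i, Fin (g i) ⊕ Fin (g i) → ℚ) v}
    (hF : ∀ t ∈ U, IsHodgeOnProduct (perProd (fun i => Z i t)) (Y t) F) (k : ℕ) :
    opD (Fin k) (Fin v) (DZ (bigD ℂ (fun i => Z i t₀))) (cstX (cfP g (F k))) = 0 := by
  have h0 : ∀ t ∈ U, opD (Fin k) (Fin v) (DZ (bigD ℂ (fun i => Z i t))) (cstX (cfP g (F k))) +
      opW (Fin k) (Fin (NB g) ⊕ Fin (NB g)) (Y t).z (cstX (cfP g (F k))) = 0 := fun t ht =>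
    total_zero (h.pos t ht) (Y t) (hF t ht) k
  have h1 : ∀ z ∈ cxX (Submodule.span ℚ {cfP g (F k)}),
      opD (Fin k) (Fin v) (DZ (bigD ℂ (fun i => Z i t₀))) z +
        opW (Fin k) (Fin (NB g) ⊕ Fin (NB g)) (Y t₀).z z ∈
          cxX (Submodule.span ℚ {cfP g (F k)}) := by
    intro z hz
    obtain ⟨r, rfl⟩ := mem_cxX_span hz
    rw [map_smul, map_smul, ← smul_add, h0 t₀ h.mem, smul_zero]
    exact Submodule.zero_mem _
  have h2 := stable_of_der (fun i => Z i t₀) (h.symm t₀ h.mem) (h.pos t₀ h.mem) h.pcs h.sim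
    h1 (fun i => by
      obtain ⟨s, hs, t, ht, hst, hne⟩ := hsep i
      refine ⟨DZ (bigD ℂ (fun i => Z i t)) - DZ (bigD ℂ (fun i => Z i s)),
        ⟨Submodule.sub_mem _ (h.lie t ht) (h.lie s hs), fun z hz => ?_⟩, fun h3 => hne ?_⟩
      · obtain ⟨r, rfl⟩ := mem_cxX_span hz
        have h3 : opD (Fin k) (Fin v) (DZ (bigD ℂ (fun i => Z i t)) -
            DZ (bigD ℂ (fun i => Z i s))) (cstX (cfP g (F k))) = 0 := by
          have h4 : opD (Fin k) (Fin v) (DZ (bigD ℂ (fun i => Z i t)) -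
            DZ (bigD ℂ (fun i => Z i s))) (cstX (cfP g (F k))) =
            opD (Fin k) (Fin v) (DZ (bigD ℂ (fun i => Z i t))) (cstX (cfP g (F k))) -
              opD (Fin k) (Fin v) (DZ (bigD ℂ (fun i => Z i s))) (cstX (cfP g (F k))) := by
            rw [sub_eq_add_neg, opD_add, ← neg_one_smul ℂ (DZ (bigD ℂ (fun i => Z i s))),
              opD_smul, neg_one_smul, ← sub_eq_add_neg]
          have h5 := h0 t ht
          have h6 := h0 s hs
          rw [hst] at h6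
          rw [h4, sub_eq_zero, eq_neg_of_add_eq_zero_left h5, eq_neg_of_add_eq_zero_left h6]
        rw [map_smul, h3, smul_zero]
        exact Submodule.zero_mem _
      · rw [Matrix.sub_mul, pmT_DZ _ (h.symm t ht) (h.pos t ht),
          pmT_DZ _ (h.symm s hs) (h.pos s hs), ← Matrix.mul_sub] at h3
        have h4 : cK ℂ (pm g ℚ i) * ((cK ℂ (pm g ℚ i))ᵀ * (DZ (Z i t) - DZ (Z i s))) = 0 := by
          rw [h3, Matrix.mul_zero]
        rw [← Matrix.mul_assoc, pm_sameC, Matrix.one_mul, sub_eq_zero] at h4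
        exact (DZ_inj ((h.pos t ht i).isUnit.map Matrix.detMonoidHom)
          ((h.pos s hs i).isUnit.map Matrix.detMonoidHom) h4).symm)
  refine opD_eq_zero (DZ_sq ((imM_bigD_posDef _ (h.pos t₀ h.mem)).isUnit.map
    Matrix.detMonoidHom)) (DZ_conj _) (h2 _ (cstX_mem (Submodule.mem_span_singleton_self _)))

theorem cmp_isH (h : VeryGood U Z t₀) (Y : (Fin d → ℂ) → Coh v)
    (hsep : ∀ i, ∃ s ∈ U, ∃ t ∈ U, (Y s).z = (Y t).z ∧ Z i s ≠ Z i t)
    {F : HAZ (∀ i, Fin (g i) ⊕ Fin (g i) → ℚ) v}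
    (hF : ∀ t ∈ U, IsHodgeOnProduct (perProd (fun i => Z i t)) (Y t) F) (k : ℕ) (b : Fin v)
    {t : Fin d → ℂ} (ht : t ∈ U) :
    IsH (DZ (bigD ℂ (fun i => Z i t))) (cfE (EE g) (cmp b (F k))) := by
  have h1 := congrArg (sl b) (opD_zero h Y hsep hF k)
  rw [sl_opD, map_zero] at h1
  exact h.lie t ht k _ h1

/-- The coordinates are killed by the second Hodge operators. -/
theorem opW_zero (h : VeryGood U Z t₀) (Y : (Fin d → ℂ) → Coh v)
    (hsep : ∀ i, ∃ s ∈ U, ∃ t ∈ U, (Y s).z = (Y t).z ∧ Z i s ≠ Z i t)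
    {F : HAZ (∀ i, Fin (g i) ⊕ Fin (g i) → ℚ) v}
    (hF : ∀ t ∈ U, IsHodgeOnProduct (perProd (fun i => Z i t)) (Y t) F) (k : ℕ)
    {t : Fin d → ℂ} (ht : t ∈ U) :
    opW (Fin k) (Fin (NB g) ⊕ Fin (NB g)) (Y t).z (cstX (cfP g (F k))) = 0 := by
  have h1 := total_zero (h.pos t ht) (Y t) (hF t ht) k
  have h2 : opD (Fin k) (Fin v) (DZ (bigD ℂ (fun i => Z i t))) (cstX (cfP g (F k))) = 0 := by
    funext p
    exact congrFun (cmp_isH h Y hsep hF k p.2 ht) p.1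
  rwa [h2, zero_add] at h1

theorem value_mem (h : VeryGood U Z t₀) (Y : (Fin d → ℂ) → Coh v)
    (hsep : ∀ i, ∃ s ∈ U, ∃ t ∈ U, (Y s).z = (Y t).z ∧ Z i s ≠ Z i t)
    {F : HAZ (∀ i, Fin (g i) ⊕ Fin (g i) → ℚ) v}
    (hF : ∀ t ∈ U, IsHodgeOnProduct (perProd (fun i => Z i t)) (Y t) F) (k : ℕ)
    (w : Fin k → (∀ i, Fin (g i) ⊕ Fin (g i) → ℚ)) {t : Fin d → ℂ} (ht : t ∈ U) :
    F k w ∈ HY (Y t) := by
  have h1 := opW_zero h Y hsep hF k ht
  have h2 : ∀ I : Fin k → Fin (NB g) ⊕ Fin (NB g), F k (fun l => EE g (I l)) ∈ HY (Y t) := by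
    intro I
    change (Y t).z *ᵥ cv (F k (fun l => EE g (I l))) = 0
    funext b
    have h3 := congrFun h1 (I, b)
    rw [opW_apply] at h3
    exact h3
  have h3 : F k w = ∑ I : Fin k → Fin (NB g) ⊕ Fin (NB g), (∏ l, aP g (w l) (I l)) •
      F k (fun l => EE g (I l)) := by
    funext b
    have h4 := congrFun (expand1 (Z := Z) (t₀ := t₀) (h.pos t₀ h.mem) (cmp b (F k))) w
    have h5 : (cmp b (F k)) w = F k w b := rfl
    rw [← h5]
    refine h4.trans ?_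
    rw [Frame.pf_apply, Finset.sum_apply]
    unfold evalF
    refine Finset.sum_congr rfl fun I _ => ?_
    rw [Pi.smul_apply, smul_eq_mul, mul_comm]
    rfl
  rw [h3]
  exact Submodule.sum_mem _ fun I _ => Submodule.smul_mem _ _ (h2 I)

section base

variable {n : ℕ} {g : Fin n → ℕ} {v : ℕ} {B : Type}
  {Z : ∀ i, B → Matrix (Fin (g i)) (Fin (g i)) ℂ} {Y : B → Coh v}

/-- A very general point on a leaf. -/
theorem exists_leaf (hmov : NotDetermined Z Y) (b : B) :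
    ∃ (U : Set (Fin 1 → ℂ)) (φ : (Fin 1 → ℂ) → B) (t₀ t : Fin 1 → ℂ),
      VeryGood U (fun i t => Z i (φ t)) t₀ ∧ t ∈ U ∧ φ t = b ∧
      ∀ i, ∃ s ∈ U, ∃ t ∈ U, (Y (φ s)).z = (Y (φ t)).z ∧ Z i (φ s) ≠ Z i (φ t) := by
  obtain ⟨U, φ, hU, hc, ⟨t, ht, htb⟩, hi⟩ := hmov b
  obtain ⟨t₀, h⟩ := Pool.Agent.Y91.TT.exists_veryGood_one hU hc ⟨t, ht⟩
    (fun i t => Z i (φ t)) (fun i => (hi i).1.1) (fun i => (hi i).1.2.1) (fun i => by
      obtain ⟨s, hs, t, ht, -, hne⟩ := (hi i).2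
      exact ⟨s, hs, t, ht, hne⟩)
    (fun i => Pool.Agent.Y91.Sharp.exists_simple hU hc (hi i).1)
  refine ⟨{x : Fin 1 → ℂ | x 0 ∈ U}, fun x => φ (x 0), t₀, fun _ => t, h, ht, htb, fun i => ?_⟩
  obtain ⟨s, hs, t, ht, h1, h2⟩ := (hi i).2
  exact ⟨fun _ => s, hs, fun _ => t, ht, h1, h2⟩

theorem cmp_isH' (hmov : NotDetermined Z Y) {F : HAZ (∀ i, Fin (g i) ⊕ Fin (g i) → ℚ) v}
    (hF : ∀ b, IsHodgeOnProduct (perProd (fun i => Z i b)) (Y b) F) (k : ℕ) (x : Fin v) (b : B) :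
    IsH (DZ (bigD ℂ (fun i => Z i b))) (cfE (EE g) (cmp x (F k))) := by
  obtain ⟨U, φ, t₀, t, h, ht, rfl, hY⟩ := exists_leaf hmov b
  exact cmp_isH h (fun t => Y (φ t)) hY (fun s hs => hF (φ s)) k x ht

theorem value_mem' (hmov : NotDetermined Z Y) {F : HAZ (∀ i, Fin (g i) ⊕ Fin (g i) → ℚ) v}
    (hF : ∀ b, IsHodgeOnProduct (perProd (fun i => Z i b)) (Y b) F) (k : ℕ)
    (w : Fin k → (∀ i, Fin (g i) ⊕ Fin (g i) → ℚ)) (b : B) : F k w ∈ HY (Y b) := by
  obtain ⟨U, φ, t₀, t, h, ht, rfl, hY⟩ := exists_leaf hmov b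
  exact value_mem h (fun t => Y (φ t)) hY (fun s hs => hF (φ s)) k w ht

theorem integral_mem (hmov : NotDetermined Z Y) {F : HAZ (∀ i, Fin (g i) ⊕ Fin (g i) → ℚ) v}
    (hF : ∀ b, IsHodgeOnProduct (perProd (fun i => Z i b)) (Y b) F) {k j : ℕ}
    (e : Basis (Fin k ⊕ Fin j) ℚ (∀ i, Fin (g i) ⊕ Fin (g i) → ℚ))
    (β : (∀ i, Fin (g i) ⊕ Fin (g i) → ℚ) [⋀^Fin j]→ₗ[ℚ] ℚ) (b : B) :
    fibreIntegral e F β ∈ HY (Y b) := by
  unfold fibreIntegral
  refine Submodule.sum_mem _ fun σ _ => ?_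
  have h1 : ∀ (z : ℤ) (x : Fin v → ℚ), x ∈ HY (Y b) → z • x ∈ HY (Y b) := fun z x hx =>
    zsmul_mem hx z
  exact h1 _ _ (Submodule.smul_mem _ _ (value_mem' hmov hF k _ b))

/-- **The reproducing property.** -/
theorem mem_of_integrals [Nonempty B] (hmov : NotDetermined Z Y)
    {F : HAZ (∀ i, Fin (g i) ⊕ Fin (g i) → ℚ) v}
    (hF : ∀ b, IsHodgeOnProduct (perProd (fun i => Z i b)) (Y b) F)
    {P : Submodule ℚ (HAZ (∀ i, Fin (g i) ⊕ Fin (g i) → ℚ) v)}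
    (hP : ∀ (k j : ℕ) (e : Basis (Fin k ⊕ Fin j) ℚ (∀ i, Fin (g i) ⊕ Fin (g i) → ℚ))
      (f : (∀ i, Fin (g i) ⊕ Fin (g i) → ℚ) [⋀^Fin k]→ₗ[ℚ] ℚ)
      (β : (∀ i, Fin (g i) ⊕ Fin (g i) → ℚ) [⋀^Fin j]→ₗ[ℚ] ℚ),
      (∀ b, f ∈ divisorSpan (perProd (fun i => Z i b)) k) →
      (∀ b, β ∈ divisorSpan (perProd (fun i => Z i b)) j) →
        cross f (fibreIntegral e F β) ∈ P) : F ∈ P := by
  classical
  have hper : ∀ b, (∀ i, (Z i b)ᵀ = Z i b) ∧ ∀ i, (imM (Z i b)).PosDef := by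
    intro b
    obtain ⟨U, φ, t₀, t, h, ht, rfl, hY⟩ := exists_leaf hmov b
    exact ⟨h.symm t ht, h.pos t ht⟩
  have hspan : ∀ {k : ℕ} (f : (∀ i, Fin (g i) ⊕ Fin (g i) → ℚ) [⋀^Fin k]→ₗ[ℚ] ℚ),
      f ∈ HH (EE g) (fun b => DZ (bigD ℂ (fun i => Z i b))) k →
      ∀ b, f ∈ divisorSpan (perProd (fun i => Z i b)) k := by
    intro k f hf b
    obtain ⟨U, φ, t₀, t, h, ht, rfl, hY⟩ := exists_leaf hmov b
    exact h.mem_span (hf (φ t₀)) ht
  obtain ⟨N, hN⟩ : ∃ N, N = Fintype.card (Fin (NB g) ⊕ Fin (NB g)) := ⟨_, rfl⟩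
  have hdim : finrank ℚ (∀ i, Fin (g i) ⊕ Fin (g i) → ℚ) = N := by
    rw [hN]
    exact finrank_eq_card_basis (basisP g)
  have hbig : ∀ k, N < k → F k = 0 := by
    intro k hk
    refine AlternatingMap.ext fun w => ?_
    refine (F k).map_linearDependent w fun hw => ?_
    have h1 := hw.fintype_card_le_finrank
    rw [Fintype.card_fin, hdim] at h1
    omega
  have hsum : F = ∑ k ∈ Finset.range (N + 1),
      (Pi.single k (F k) : HAZ (∀ i, Fin (g i) ⊕ Fin (g i) → ℚ) v) := by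
    funext k
    rw [Finset.sum_apply]
    by_cases hk : k ∈ Finset.range (N + 1)
    · rw [Finset.sum_eq_single k]
      · rw [Pi.single_eq_same]
      · intro l _ hl
        exact Pi.single_eq_of_ne (Ne.symm hl) _
      · intro h0
        exact absurd hk h0
    · rw [Finset.sum_eq_zero]
      · refine hbig k ?_
        rw [Finset.mem_range] at hk
        omega
      · intro l hl
        refine Pi.single_eq_of_ne ?_ _
        rintro rfl
        exact hk hl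
  rw [hsum]
  refine Submodule.sum_mem _ fun k hk => ?_
  rw [Finset.mem_range] at hk
  have hkN : k + (N - k) = Fintype.card (Fin (NB g) ⊕ Fin (NB g)) := by omega
  have hq : Fintype.card (Fin (NB g) ⊕ Fin (NB g)) = Fintype.card (Fin k ⊕ Fin (N - k)) := by
    rw [Fintype.card_sum (α := Fin k), Fintype.card_fin, Fintype.card_fin, hkN]
  let e : Basis (Fin k ⊕ Fin (N - k)) ℚ (∀ i, Fin (g i) ⊕ Fin (g i) → ℚ) :=
    (basisP g).reindex (Fintype.equivOfCardEq hq)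
  refine reproduce (X := B) (EE g)
    (fun b => polOf (bigD_symm (hper b).1) (imM_bigD_posDef _ (hper b).2))
    (fun x y => (polOf_Om _ _).trans (polOf_Om _ _).symm) (fun {κ} _ _ f hf => cfE_inj f hf)
    hkN e F (fun x b => cmp_isH' hmov hF k x b) fun f hf β hβ => ?_
  exact hP k _ e f β (hspan f hf) (hspan β hβ)

end base

/-- **The variational Hodge conjecture** for the product of a fibre product of good families of
abelian varieties and a family of varieties which does not determine their periods. -/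
theorem main {ι B : Type} [Nonempty B] {g : ι → ℕ}
    (Z : ∀ i, B → Matrix (Fin (g i)) (Fin (g i)) ℂ) {n : ℕ} (c : Fin n → ι) {v : ℕ}
    (Y : B → Coh v) (hmov : NotDetermined Z Y) :
    HodgeClassesAreProducts (fibreProduct Z c) Y ∧ VariationalFromY (fibreProduct Z c) Y := by
  have hmov' : NotDetermined (fun j => Z (c j)) Y := by
    intro b
    obtain ⟨U, φ, hU, hc, hb, hm⟩ := hmov b
    exact ⟨U, φ, hU, hc, hb, fun j => hm (c j)⟩
  refine ⟨fun F hF => ?_, fun C hC F hF b₀ hb₀ b => ?_⟩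
  · exact mem_of_integrals hmov' hF fun k j e f β hf hβ =>
      Submodule.subset_span ⟨k, f, _, hf, fun b => integral_mem hmov' hF e β b, rfl⟩
  · refine mem_of_integrals hmov' hF fun k j e f β hf hβ => ?_
    refine C.cross_mem b k f (hf b) _ ?_
    refine hC _ (fun b' => integral_mem hmov' hF e β b') b₀ ?_ b
    exact C.integral_mem b₀ F hb₀ k j e β (hβ b₀)

end

end Pool.Agent.Y91.VH
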